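import Pool.Agent.W662.KKS.Stmts

/-! Amplification (`S_AMP`). -/

set_option autoImplicit false
set_option linter.unusedSectionVars false

open scoped InnerProductSpace
open Pool.Agent.Helper278 Pool.Agent.W662.KKS

namespace Pool.Agent.W928.KKS

section

variable {H : Type} [NormedAddCommGroup H] [InnerProductSpace ℂ H] [CompleteSpace H]

/-- the amplified Hilbert space -/
abbrev AK (H : Type) [NormedAddCommGroup H] [InnerProductSpace ℂ H] : Type :=
  lp (fun _ : ℕ => H) 2

lemma two_pos' : 0 < (2 : ENNReal).toReal := by norm_num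

/-- a single vector -/
noncomputable def sg (m : ℕ) (h : H) : AK H := lp.single (E := fun _ : ℕ => H) 2 m h

lemma sg_self (m : ℕ) (h : H) : sg m h m = h := lp.single_apply_self (E := fun _ : ℕ => H) 2 m h

lemma sg_ne (m : ℕ) (h : H) {n : ℕ} (hn : n ≠ m) : sg m h n = 0 :=
  lp.single_apply_ne (E := fun _ : ℕ => H) 2 m h hn

lemma norm_sg (m : ℕ) (h : H) : ‖sg m h‖ = ‖h‖ :=
  lp.norm_single (E := fun _ : ℕ => H) (p := 2) (by norm_num) m h

/-- diagonal action on sequences -/
noncomputable def aFun (x : H →L[ℂ] H) (v : AK H) : AK H :=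
  ⟨fun n => x (v n), by
    show Memℓp (fun n => x (v n)) 2
    rw [memℓp_gen_iff two_pos']
    have h1 : Summable fun n => ‖v n‖ ^ (2 : ENNReal).toReal :=
      (memℓp_gen_iff two_pos').1 (lp.memℓp v)
    refine Summable.of_nonneg_of_le (fun n => by positivity) (fun n => ?_)
      (h1.mul_left (‖x‖ ^ (2 : ENNReal).toReal))
    rw [← Real.mul_rpow (norm_nonneg _) (norm_nonneg _)]
    exact Real.rpow_le_rpow (norm_nonneg _) (x.le_opNorm _) (by norm_num)⟩

lemma aFun_apply (x : H →L[ℂ] H) (v : AK H) (n : ℕ) : aFun x v n = x (v n) := rfl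

lemma norm_aFun (x : H →L[ℂ] H) (v : AK H) : ‖aFun x v‖ ≤ ‖x‖ * ‖v‖ := by
  refine lp.norm_le_of_forall_sum_le two_pos' (by positivity) (fun s => ?_)
  rw [Real.mul_rpow (norm_nonneg _) (norm_nonneg _)]
  have h1 := lp.sum_rpow_le_norm_rpow two_pos' v s
  refine le_trans ?_ (mul_le_mul_of_nonneg_left h1 (by positivity))
  rw [Finset.mul_sum]
  refine Finset.sum_le_sum (fun n _ => ?_)
  rw [← Real.mul_rpow (norm_nonneg _) (norm_nonneg _)]
  exact Real.rpow_le_rpow (norm_nonneg _) (x.le_opNorm _) (by norm_num)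

/-- the amplification of an operator -/
noncomputable def al (x : H →L[ℂ] H) : AK H →L[ℂ] AK H :=
  LinearMap.mkContinuous
    { toFun := aFun x
      map_add' := fun v w => by
        ext n
        simp [aFun_apply]
      map_smul' := fun c v => by
        ext n
        simp [aFun_apply] } ‖x‖ (norm_aFun x)

lemma al_apply (x : H →L[ℂ] H) (v : AK H) (n : ℕ) : al x v n = x (v n) := rfl

lemma norm_al (x : H →L[ℂ] H) : ‖al x‖ = ‖x‖ := by
  apply le_antisymm
  · exact ContinuousLinearMap.opNorm_le_bound _ (norm_nonneg _) (norm_aFun x)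
  · refine ContinuousLinearMap.opNorm_le_bound _ (norm_nonneg _) (fun h => ?_)
    have h1 : al x (sg 0 h) = sg 0 (x h) := by
      ext n
      rw [al_apply]
      rcases eq_or_ne n 0 with rfl | hn
      · rw [sg_self, sg_self]
      · rw [sg_ne 0 h hn, sg_ne 0 (x h) hn, map_zero]
    have h2 := (al x).le_opNorm (sg 0 h)
    rw [h1, norm_sg, norm_sg] at h2
    exact h2

lemma al_star (x : H →L[ℂ] H) : al (star x) = star (al x) := by
  rw [ContinuousLinearMap.star_eq_adjoint (al x), ContinuousLinearMap.eq_adjoint_iff]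
  intro v w
  rw [lp.inner_eq_tsum, lp.inner_eq_tsum]
  refine tsum_congr (fun n => ?_)
  rw [al_apply, al_apply, ContinuousLinearMap.star_eq_adjoint,
    ContinuousLinearMap.adjoint_inner_left]

lemma al_mul (x y : H →L[ℂ] H) : al (x * y) = al x * al y := by
  ext v n; rfl

lemma al_sub (x y : H →L[ℂ] H) : al (x - y) = al x - al y := by
  ext v n; rfl

/-- the amplification as a star algebra homomorphism -/
noncomputable def alH : (H →L[ℂ] H) →⋆ₐ[ℂ] (AK H →L[ℂ] AK H) where
  toFun := al
  map_one' := by ext v n; rfl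
  map_mul' x y := al_mul x y
  map_zero' := by ext v n; rfl
  map_add' x y := by ext v n; rfl
  commutes' c := by
    ext v n
    simp [Algebra.algebraMap_eq_smul_one, al_apply]
  map_star' x := al_star x

lemma al_inj {x y : H →L[ℂ] H} (h : al x = al y) : x = y := by
  have h1 : al (x - y) = 0 := by
    rw [al_sub, h, sub_self]
  have h2 := norm_al (x - y)
  rw [h1, norm_zero] at h2
  exact sub_eq_zero.1 (norm_eq_zero.1 h2.symm)

/-- matrix units -/
noncomputable def mu (m n : ℕ) : AK H →L[ℂ] AK H :=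
  (lp.singleContinuousLinearMap ℂ (fun _ : ℕ => H) 2 m) ∘L
    (lp.evalCLM ℂ (fun _ : ℕ => H) 2 n)

lemma mu_apply (m n : ℕ) (v : AK H) : mu m n v = sg m (v n) := rfl

lemma mu_comm (m n : ℕ) (x : H →L[ℂ] H) : al x * mu m n = mu m n * al x := by
  ext v k
  change al x (mu m n v) k = mu m n (al x v) k
  rw [al_apply, mu_apply, mu_apply, al_apply]
  rcases eq_or_ne k m with rfl | hk
  · rw [sg_self, sg_self]
  · rw [sg_ne m _ hk, sg_ne m _ hk, map_zero]

/-- compression to the first coordinate -/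
noncomputable def cmp (T : AK H →L[ℂ] AK H) : H →L[ℂ] H :=
  (lp.evalCLM ℂ (fun _ : ℕ => H) 2 0) ∘L T ∘L
    (lp.singleContinuousLinearMap ℂ (fun _ : ℕ => H) 2 0)

lemma cmp_apply (T : AK H →L[ℂ] AK H) (h : H) : cmp T h = T (sg 0 h) 0 := rfl

lemma eq_al (T : AK H →L[ℂ] AK H) (hT : ∀ m n, T * mu m n = mu m n * T) : T = al (cmp T) := by
  ext v n
  rw [al_apply, cmp_apply]
  have h1 : T (mu 0 n v) = mu 0 n (T v) := DFunLike.congr_fun (hT 0 n) v
  rw [mu_apply, mu_apply] at h1
  rw [h1, sg_self]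

lemma bicomm (M : VonNeumannAlgebra H) :
    Set.centralizer (Set.centralizer (al '' (M : Set (H →L[ℂ] H)))) =
      al '' (M : Set (H →L[ℂ] H)) := by
  apply Set.Subset.antisymm
  · intro T hT
    have h1 : T = al (cmp T) := by
      apply eq_al
      intro m n
      refine (hT (mu m n) ?_).symm
      rintro _ ⟨x, _, rfl⟩
      exact mu_comm m n x
    refine ⟨cmp T, ?_, h1.symm⟩
    rw [← M.centralizer_centralizer]
    intro r hr
    have h2 : al r * T = T * al r := by
      apply hT
      rintro _ ⟨x, hx, rfl⟩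
      have h3 : x * r = r * x := hr x hx
      rw [← al_mul, ← al_mul, h3]
    rw [h1] at h2
    apply al_inj
    rw [al_mul, al_mul, h2]
  · exact Set.subset_centralizer_centralizer

/-- the amplification of a von Neumann algebra -/
noncomputable def aM (M : VonNeumannAlgebra H) : VonNeumannAlgebra (AK H) where
  toStarSubalgebra := StarSubalgebra.map alH M.toStarSubalgebra
  centralizer_centralizer' := bicomm M

lemma mem_aM (M : VonNeumannAlgebra H) (z : AK H →L[ℂ] AK H) :
    z ∈ aM M ↔ ∃ x ∈ M, z = al x := by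
  constructor
  · rintro ⟨x, hx, h⟩
    exact ⟨x, hx, h.symm⟩
  · rintro ⟨x, hx, h⟩
    exact ⟨x, hx, h.symm⟩

end

theorem amp : S_AMP := by
  intro H _ _ _
  refine ⟨AK H, inferInstance, inferInstance, inferInstance, alH, norm_al, fun M =>
    ⟨aM M, mem_aM M, ?_⟩⟩
  rintro τ ⟨ξ, hξ, hτ⟩
  refine ⟨⟨ξ, ?_⟩, fun x => ?_⟩
  · show Memℓp ξ 2
    rw [memℓp_gen_iff two_pos']
    refine hξ.congr (fun n => ?_)
    norm_num
  · rw [hτ x, lp.inner_eq_tsum]
    rfl

end Pool.Agent.W928.KKS
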